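import Pool.Agent.helper37.L5.Spec

set_option autoImplicit false

namespace Pool.Agent.L5

open Pool.Agent.helper58.DC Pool.Agent.DI Pool.Agent.GR Pool.Agent.OB Pool.Agent.DR Pool.Agent.FI Pool.Agent.FI3 Pool.Agent.FI4 Pool.Agent.FI4I Pool.Agent.LE

theorem LOC5_inf {G : Type} [Group G] (T N : Subgroup G) (g₀ n t : G) (hn : n ∈ N) (ht : t ∈ T) :
    (N ⊓ cjS (n * g₀ * t) T : Subgroup G) = cjS n (N ⊓ cjS g₀ T) := by
  ext x
  rw [Subgroup.mem_inf, mem_cjS, mem_cjS, Subgroup.mem_inf, mem_cjS]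
  have h1 : (n * g₀ * t)⁻¹ * x * (n * g₀ * t) = t⁻¹ * (g₀⁻¹ * (n⁻¹ * x * n) * g₀) * t := by group
  rw [h1, T.mul_mem_cancel_right ht, T.mul_mem_cancel_left (T.inv_mem ht),
    N.mul_mem_cancel_right hn, N.mul_mem_cancel_left (N.inv_mem hn)]

open Classical in
theorem LOC5 (hACJ : ACJ5_stmt) (hDCT : DCT5_stmt) (hFSI : FSI_stmt) (hFEQ : FEQ_stmt) (hBKV : BKV_stmt)
    (hB2 : B2_stmt) : LOC5_stmt := by
  intro p M hS G _ _ D x θ χ hR Q N hMid
  set T := TT M D θ with hT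
  have hBfin : (Blk M χ N).Finite := (hB2 G N).1.subset (fun ψ hψ => hψ.1)
  have hGfin : ({g : G | Q ≤ cjS g D}).Finite := Set.toFinite _
  set 𝒢 := hGfin.toFinset with h𝒢
  set ℬ := hBfin.toFinset with hℬ
  have hcard : ∀ (g : G) (P : Subgroup G), Nat.card (cjS g P) = Nat.card P := fun g P =>
    (hFEQ G M g g P P P θ θ χ).2.1.2.2.2.2.2
  -- the blocks over g
  have hLe : ∀ g ∈ 𝒢, Le p M N (cjF g θ) =
      ∑ φ ∈ ℬ, if SB M N (cjF g θ) φ then EE p N φ φ else 0 := by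
    intro g hg
    have hgQ : Q ≤ cjS g D := by
      rw [h𝒢, Set.Finite.mem_toFinset] at hg
      exact hg
    obtain ⟨hb1, hb2, -, -⟩ := hBKV p M hS G D x θ χ hR Q N hMid g hgQ
    rw [← Finset.sum_filter]
    unfold Le
    have hset : Bl M N (cjF g θ) = ((ℬ.filter (fun φ => SB M N (cjF g θ) φ) : Finset (G → ℂ)) : Set (G → ℂ)) := by
      ext φ
      rw [Finset.mem_coe, Finset.mem_filter, hℬ, Set.Finite.mem_toFinset]
      have hθ0 : ∀ y, y ∉ N → cjF g θ y = 0 := by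
        intro y hy
        rw [cjF_apply]
        have h1 := ((hB2 G (cz D)).2 θ hR.th).2.2.2.1
        apply h1
        intro h2
        apply hy
        apply hb2
        have h3 : cz (cjS g D) = cjS g (cz D) := (hFEQ G M g g D D D θ θ χ).2.1.1
        rw [h3, mem_cjS]
        exact h2
      have hind : Induces M (cjF g θ) χ := by
        have h4 := (hFEQ G M g g D D D θ θ χ).2.2.2.2.2.1 hR.chi
        exact h4.2.mpr hR.ind
      constructor
      · rintro ⟨hφ1, hφ2⟩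
        have hφ0 : ∀ y, y ∉ N → φ y = 0 := ((hB2 G N).2 φ hφ1).2.2.2.1
        have hsb : SB M N (cjF g θ) φ := hφ2.symm
        refine ⟨⟨hφ1, ?_⟩, hsb⟩
        exact ((hFSI p M hS G N N (cjF g θ) φ).2 hθ0 hφ0 hsb χ).mp hind
      · rintro ⟨hφ1, hφ2⟩
        exact ⟨hφ1.1, hφ2.symm⟩
    rw [hset, finsum_mem_coe_finset]
  have hRHS : ∑ᶠ g ∈ {g : G | Q ≤ cjS g D},
        (Nat.card (N ⊓ cjS g T : Subgroup G) : ℂ) * Le p M N (cjF g θ) =
      ∑ g ∈ 𝒢, (Nat.card (N ⊓ cjS g T : Subgroup G) : ℂ) *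
        ∑ φ ∈ ℬ, if SB M N (cjF g θ) φ then EE p N φ φ else 0 := by
    rw [finsum_mem_eq_finite_toFinset_sum _ hGfin]
    apply Finset.sum_congr rfl
    intro g hg
    rw [hLe g hg]
  rw [hRHS]
  have hLL : LL p M χ N = ∑ φ ∈ ℬ, EE p N φ φ := by
    unfold LL
    rw [finsum_mem_eq_finite_toFinset_sum _ hBfin]
  rw [hLL]
  have hswap : ∑ g ∈ 𝒢, (Nat.card (N ⊓ cjS g T : Subgroup G) : ℂ) *
        (∑ φ ∈ ℬ, if SB M N (cjF g θ) φ then EE p N φ φ else 0) =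
      ∑ φ ∈ ℬ, EE p N φ φ * ∑ g ∈ 𝒢, if SB M N (cjF g θ) φ then
        (Nat.card (N ⊓ cjS g T : Subgroup G) : ℂ) else 0 := by
    simp only [Finset.mul_sum]
    rw [Finset.sum_comm]
    apply Finset.sum_congr rfl
    intro φ _
    apply Finset.sum_congr rfl
    intro g _
    split_ifs
    · ring
    · ring
  rw [hswap]
  have hinner : ∀ φ ∈ ℬ, (∑ g ∈ 𝒢, if SB M N (cjF g θ) φ then
        (Nat.card (N ⊓ cjS g T : Subgroup G) : ℂ) else 0) = (Nat.card N : ℂ) * Nat.card T := by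
    intro φ hφ
    have hφ' : φ ∈ Blk M χ N := by
      rw [hℬ, Set.Finite.mem_toFinset] at hφ
      exact hφ
    obtain ⟨g₀, -, hg₀⟩ := hACJ p M hS G D x θ χ hR Q N hMid φ hφ'
    have hD := hDCT G T N g₀
    rw [← Finset.sum_filter]
    have hconst : ∀ g ∈ 𝒢.filter (fun g => SB M N (cjF g θ) φ),
        (Nat.card (N ⊓ cjS g T : Subgroup G) : ℂ) = (Nat.card (N ⊓ cjS g₀ T : Subgroup G) : ℂ) := by
      intro g hg
      rw [Finset.mem_filter, h𝒢, Set.Finite.mem_toFinset] at hg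
      obtain ⟨n, hn, t, ht, rfl⟩ := (hg₀ g).mp hg
      rw [LOC5_inf T N g₀ n t hn ht, hcard]
    rw [Finset.sum_congr rfl hconst, Finset.sum_const, nsmul_eq_mul]
    have hset : ({g : G | ∃ n ∈ N, ∃ t ∈ T, g = n * g₀ * t} : Set G) =
        ((𝒢.filter (fun g => SB M N (cjF g θ) φ) : Finset G) : Set G) := by
      ext g
      rw [Finset.mem_coe, Finset.mem_filter, h𝒢, Set.Finite.mem_toFinset]
      exact (hg₀ g).symm
    rw [hset, Set.ncard_coe_finset] at hD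
    exact_mod_cast hD
  have hfin : ∑ φ ∈ ℬ, EE p N φ φ * (∑ g ∈ 𝒢, if SB M N (cjF g θ) φ then
        (Nat.card (N ⊓ cjS g T : Subgroup G) : ℂ) else 0) =
      ∑ φ ∈ ℬ, EE p N φ φ * ((Nat.card N : ℂ) * Nat.card T) := by
    apply Finset.sum_congr rfl
    intro φ hφ
    rw [hinner φ hφ]
  rw [hfin, ← Finset.sum_mul]
  ring

end Pool.Agent.L5
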